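import Pool.Agent.H20.Neg.Pairs

/-!
# The smallest elements of `S_4(r,s)`
-/

namespace Pool.Agent.H20.Neg

open Finset

variable {r s : ℕ}

/-- the set of columns where the rows `a` and `b` differ -/
def diffSet (σ : Fin r → Fin s → ℤˣ) (a b : Fin r) : Finset (Fin s) :=
  univ.filter (fun j => σ a j ≠ σ b j)

/-- the number of negative 4-circles on the rows `a` and `b` -/
def cost (σ : Fin r → Fin s → ℤˣ) (a b : Fin r) : ℕ :=
  (diffSet σ a b).card * (s - (diffSet σ a b).card)

lemma diffSet_comm (σ : Fin r → Fin s → ℤˣ) (a b : Fin r) : diffSet σ a b = diffSet σ b a := by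
  ext j
  simp [diffSet, ne_comm]

lemma cost_comm (σ : Fin r → Fin s → ℤˣ) (a b : Fin r) : cost σ a b = cost σ b a := by
  rw [cost, diffSet_comm, cost]

lemma diffSet_self (σ : Fin r → Fin s → ℤˣ) (a : Fin r) : diffSet σ a a = ∅ := by
  ext j
  simp [diffSet]

lemma cost_self (σ : Fin r → Fin s → ℤˣ) (a : Fin r) : cost σ a a = 0 := by
  simp [cost, diffSet_self]

lemma dcount_eps_pair (σ : Fin r → Fin s → ℤˣ) (a b : Fin r) (hab : a ≠ b) :
    dcount (eps σ {a, b}) = (diffSet σ a b).card := by
  unfold dcount diffSet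
  congr 1
  ext j
  simp only [Finset.mem_filter, Finset.mem_univ, true_and]
  rw [eps, Finset.prod_pair hab]
  rcases Int.units_eq_one_or (σ a j) with h | h <;> rcases Int.units_eq_one_or (σ b j) with h' | h' <;>
    rw [h, h'] <;> decide

/-- Twice the number of negative 4-circles, as a sum over ordered pairs of rows. -/
lemma two_mul_negCount (σ : Fin r → Fin s → ℤˣ) :
    2 * negCount 4 σ = ∑ a : Fin r, ∑ b : Fin r, cost σ a b := by
  classical
  rw [negCount_four', ← Finset.sum_product' (f := fun a b => cost σ a b)]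
  have h1 : ∑ p ∈ (univ : Finset (Fin r)) ×ˢ (univ : Finset (Fin r)), cost σ p.1 p.2 =
      ∑ p ∈ (univ : Finset (Fin r)).offDiag, cost σ p.1 p.2 := by
    symm
    apply Finset.sum_subset
    · intro p _
      exact Finset.mem_product.mpr ⟨Finset.mem_univ _, Finset.mem_univ _⟩
    · intro p _ hp
      have : p.1 = p.2 := by
        by_contra hne
        exact hp (Finset.mem_offDiag.mpr ⟨Finset.mem_univ _, Finset.mem_univ _, hne⟩)
      rw [this, cost_self]
  rw [h1, Finset.mul_sum]
  rw [← Finset.sum_fiberwise_of_maps_to (s := (univ : Finset (Fin r)).offDiag)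
    (t := (univ : Finset (Fin r)).powersetCard 2) (g := fun p => ({p.1, p.2} : Finset (Fin r)))]
  · apply Finset.sum_congr rfl
    intro A hA
    obtain ⟨a, b, hab, rfl⟩ := Finset.card_eq_two.mp (Finset.mem_powersetCard.mp hA).2
    have hfib : (univ : Finset (Fin r)).offDiag.filter (fun p => ({p.1, p.2} : Finset (Fin r)) =
        {a, b}) = {(a, b), (b, a)} := by
      ext ⟨x, y⟩
      simp only [Finset.mem_filter, Finset.mem_offDiag, Finset.mem_univ, true_and,
        Finset.mem_insert, Finset.mem_singleton, Prod.mk.injEq]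
      constructor
      · rintro ⟨hxy, he⟩
        have hx : x ∈ ({a, b} : Finset (Fin r)) := by rw [← he]; simp
        have hy : y ∈ ({a, b} : Finset (Fin r)) := by rw [← he]; simp
        rw [Finset.mem_insert, Finset.mem_singleton] at hx hy
        rcases hx with hx | hx <;> rcases hy with hy | hy
        · exact absurd (hx.trans hy.symm) hxy
        · exact Or.inl ⟨hx, hy⟩
        · exact Or.inr ⟨hx, hy⟩
        · exact absurd (hx.trans hy.symm) hxy
      · rintro (⟨rfl, rfl⟩ | ⟨rfl, rfl⟩)
        · exact ⟨hab, rfl⟩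
        · exact ⟨hab.symm, Finset.pair_comm _ _⟩
    rw [hfib, Finset.sum_pair (by simp [hab]), cost_comm σ b a, dcount_eps_pair σ a b hab]
    simp only [cost]
    ring
  · intro p hp
    have := (Finset.mem_offDiag.mp hp).2.2
    exact Finset.mem_powersetCard.mpr ⟨Finset.subset_univ _, Finset.card_pair this⟩

/-- the rows `a` and `b` are equal or opposite -/
def Bal (σ : Fin r → Fin s → ℤˣ) (a b : Fin r) : Prop :=
  (diffSet σ a b).card = 0 ∨ (diffSet σ a b).card = s

lemma bal_iff (σ : Fin r → Fin s → ℤˣ) (a b : Fin r) :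
    Bal σ a b ↔ (∀ j, σ a j = σ b j) ∨ (∀ j, σ a j = -σ b j) := by
  unfold Bal
  constructor
  · rintro (h | h)
    · left
      intro j
      by_contra hne
      have : j ∈ diffSet σ a b := by simp [diffSet, hne]
      rw [Finset.card_eq_zero] at h
      rw [h] at this
      exact absurd this (Finset.notMem_empty _)
    · right
      intro j
      have hu : diffSet σ a b = univ := Finset.eq_univ_of_card _ (by simpa using h)
      have hj : j ∈ diffSet σ a b := by rw [hu]; exact Finset.mem_univ _
      have hne : σ a j ≠ σ b j := by simpa [diffSet] using hj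
      rcases Int.units_eq_one_or (σ a j) with h1 | h1 <;>
        rcases Int.units_eq_one_or (σ b j) with h2 | h2 <;> rw [h1, h2] at hne ⊢
      · exact absurd rfl hne
      · decide
      · exact absurd rfl hne
  · rintro (h | h)
    · left
      rw [Finset.card_eq_zero, diffSet, Finset.filter_eq_empty_iff]
      intro j _
      exact not_not.mpr (h j)
    · right
      have : diffSet σ a b = univ := by
        ext j
        simp only [diffSet, Finset.mem_filter, Finset.mem_univ, true_and, iff_true]
        rw [h j]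
        rcases Int.units_eq_one_or (σ b j) with h2 | h2 <;> rw [h2] <;> decide
      rw [this]
      simp

lemma Bal.symm {σ : Fin r → Fin s → ℤˣ} {a b : Fin r} (h : Bal σ a b) : Bal σ b a := by
  unfold Bal at *
  rw [diffSet_comm]
  exact h

lemma Bal.trans {σ : Fin r → Fin s → ℤˣ} {a b c : Fin r} (h : Bal σ a b) (h' : Bal σ b c) :
    Bal σ a c := by
  rw [bal_iff] at *
  rcases h with h | h <;> rcases h' with h' | h'
  · left; intro j; rw [h, h']
  · right; intro j; rw [h, h']
  · right; intro j; rw [h, h']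
  · left; intro j; rw [h, h', neg_neg]

lemma bal_refl (σ : Fin r → Fin s → ℤˣ) (a : Fin r) : Bal σ a a := by
  left
  rw [diffSet_self]
  rfl

lemma card_diffSet_le (σ : Fin r → Fin s → ℤˣ) (a b : Fin r) : (diffSet σ a b).card ≤ s := by
  calc _ ≤ (univ : Finset (Fin s)).card := Finset.card_le_card (Finset.subset_univ _)
    _ = s := by simp

lemma cost_eq_zero_of_bal {σ : Fin r → Fin s → ℤˣ} {a b : Fin r} (h : Bal σ a b) :
    cost σ a b = 0 := by
  unfold cost
  rcases h with h | h
  · rw [h, zero_mul]
  · rw [h, Nat.sub_self, mul_zero]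

lemma mul_sub_ge (d s e : ℕ) (h1 : e ≤ d) (h2 : d + e ≤ s) : e * (s - e) ≤ d * (s - d) := by
  obtain ⟨t, rfl⟩ : ∃ t, s = d + e + t := ⟨s - (d + e), by omega⟩
  obtain ⟨u, rfl⟩ : ∃ u, d = e + u := ⟨d - e, by omega⟩
  have e1 : e + u + e + t - e = e + u + t := by omega
  have e2 : e + u + e + t - (e + u) = e + t := by omega
  rw [e1, e2]
  nlinarith

lemma cost_ge_of_not_bal {σ : Fin r → Fin s → ℤˣ} {a b : Fin r} (h : ¬ Bal σ a b) :
    s - 1 ≤ cost σ a b := by
  unfold Bal at h
  push Not at h
  have := card_diffSet_le σ a b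
  have h1 := mul_sub_ge (diffSet σ a b).card s 1 (by omega) (by omega)
  unfold cost
  omega

end Pool.Agent.H20.Neg
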