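import Pool.Agent.H20.Neg.Bottom

/-!
# The smallest elements of `S_4(r,s)`: the dichotomy
-/

namespace Pool.Agent.H20.Neg

open Finset

variable {r s : ℕ}

lemma cost_congr_left {σ : Fin r → Fin s → ℤˣ} {a a' : Fin r} (h : Bal σ a a') (b : Fin r) :
    cost σ a b = cost σ a' b := by
  rw [bal_iff] at h
  rcases h with h | h
  · have : diffSet σ a b = diffSet σ a' b := by
      ext j
      simp [diffSet, h j]
    rw [cost, this, cost]
  · have : diffSet σ a b = univ \ diffSet σ a' b := by
      ext j
      simp only [diffSet, Finset.mem_filter, Finset.mem_univ, true_and, Finset.mem_sdiff, h j,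
        not_not]
      rcases Int.units_eq_one_or (σ a' j) with h1 | h1 <;>
        rcases Int.units_eq_one_or (σ b j) with h2 | h2 <;> rw [h1, h2] <;> decide
    have hc : (diffSet σ a b).card = s - (diffSet σ a' b).card := by
      rw [this, Finset.card_sdiff_of_subset (Finset.subset_univ _)]
      simp
    have hle := card_diffSet_le σ a' b
    rw [cost, hc, cost, Nat.sub_sub_self hle, mul_comm]

lemma cost_congr {σ : Fin r → Fin s → ℤˣ} {a a' b b' : Fin r} (h : Bal σ a a') (h' : Bal σ b b') :
    cost σ a b = cost σ a' b' := by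
  rw [cost_congr_left h b, cost_comm, cost_congr_left h' a', cost_comm]

lemma card_diffSet_triple (σ : Fin r → Fin s → ℤˣ) (a b c : Fin r) :
    (diffSet σ b c).card + 2 * (diffSet σ a b ∩ diffSet σ a c).card =
      (diffSet σ a b).card + (diffSet σ a c).card ∧
    (diffSet σ a b).card + (diffSet σ a c).card ≤
      s + (diffSet σ a b ∩ diffSet σ a c).card := by
  have h1 : diffSet σ b c = (diffSet σ a b \ diffSet σ a c) ∪ (diffSet σ a c \ diffSet σ a b) := by
    ext j
    simp only [diffSet, Finset.mem_filter, Finset.mem_univ, true_and, Finset.mem_union,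
      Finset.mem_sdiff, not_not]
    rcases Int.units_eq_one_or (σ a j) with h1 | h1 <;>
      rcases Int.units_eq_one_or (σ b j) with h2 | h2 <;>
      rcases Int.units_eq_one_or (σ c j) with h3 | h3 <;> rw [h1, h2, h3] <;> decide
  have h2 := Finset.card_sdiff_add_card_inter (diffSet σ a b) (diffSet σ a c)
  have h3 := Finset.card_sdiff_add_card_inter (diffSet σ a c) (diffSet σ a b)
  rw [Finset.inter_comm] at h3
  have h4 : (diffSet σ b c).card = (diffSet σ a b \ diffSet σ a c).card +
      (diffSet σ a c \ diffSet σ a b).card := by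
    rw [h1]
    apply Finset.card_union_of_disjoint
    rw [Finset.disjoint_left]
    intro x hx hx'
    exact (Finset.mem_sdiff.mp hx').2 (Finset.mem_sdiff.mp hx).1
  have h5 := Finset.card_union_add_card_inter (diffSet σ a b) (diffSet σ a c)
  have h6 : (diffSet σ a b ∪ diffSet σ a c).card ≤ s := by
    calc _ ≤ (univ : Finset (Fin s)).card := Finset.card_le_card (Finset.subset_univ _)
      _ = s := by simp
  constructor <;> omega

lemma triple_cost (σ : Fin r → Fin s → ℤˣ) (a b c : Fin r) (hab : ¬ Bal σ a b) (hac : ¬ Bal σ a c)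
    (hbc : ¬ Bal σ b c) : 4 * s - 6 ≤ cost σ a b + cost σ a c + cost σ b c := by
  have c1 := cost_ge_of_not_bal hab
  have c2 := cost_ge_of_not_bal hac
  have c3 := cost_ge_of_not_bal hbc
  unfold Bal at hab hac hbc
  push Not at hab hac hbc
  have l1 := card_diffSet_le σ a b
  have l2 := card_diffSet_le σ a c
  have l3 := card_diffSet_le σ b c
  obtain ⟨t1, t2⟩ := card_diffSet_triple σ a b c
  have t3 : (diffSet σ a b ∩ diffSet σ a c).card ≤ (diffSet σ a b).card :=
    Finset.card_le_card Finset.inter_subset_left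
  have t4 : (diffSet σ a b ∩ diffSet σ a c).card ≤ (diffSet σ a c).card :=
    Finset.card_le_card Finset.inter_subset_right
  by_cases hs : s ≤ 3
  · omega
  push Not at hs
  have key : ∀ x y : Fin r, 2 ≤ (diffSet σ x y).card → (diffSet σ x y).card + 2 ≤ s →
      2 * (s - 2) ≤ cost σ x y := fun x y h1 h2 => mul_sub_ge _ _ 2 h1 h2
  by_cases k1 : 2 ≤ (diffSet σ a b).card ∧ (diffSet σ a b).card + 2 ≤ s
  · have := key a b k1.1 k1.2
    omega
  by_cases k2 : 2 ≤ (diffSet σ a c).card ∧ (diffSet σ a c).card + 2 ≤ s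
  · have := key a c k2.1 k2.2
    omega
  by_cases k3 : 2 ≤ (diffSet σ b c).card ∧ (diffSet σ b c).card + 2 ≤ s
  · have := key b c k3.1 k3.2
    omega
  exfalso
  omega

lemma two_cost (σ : Fin r → Fin s → ℤˣ) (a b c x : Fin r) (hab : ¬ Bal σ a b) (hac : ¬ Bal σ a c)
    (hbc : ¬ Bal σ b c) : 2 * (s - 1) ≤ cost σ x a + cost σ x b + cost σ x c := by
  by_cases h1 : Bal σ x a
  · have h2 : ¬ Bal σ x b := fun h => hab (h1.symm.trans h)
    have h3 : ¬ Bal σ x c := fun h => hac (h1.symm.trans h)
    have := cost_ge_of_not_bal h2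
    have := cost_ge_of_not_bal h3
    omega
  · have g1 := cost_ge_of_not_bal h1
    by_cases h2 : Bal σ x b
    · have h3 : ¬ Bal σ x c := fun h => hbc (h2.symm.trans h)
      have := cost_ge_of_not_bal h3
      omega
    · have := cost_ge_of_not_bal h2
      omega

/-- Three pairwise unbalanced rows force many negative 4-circles. -/
lemma many_of_three (σ : Fin r → Fin s → ℤˣ) (a b c : Fin r) (hab : ¬ Bal σ a b)
    (hac : ¬ Bal σ a c) (hbc : ¬ Bal σ b c) :
    2 * (r - 3) * (s - 1) + (4 * s - 6) ≤ negCount 4 σ := by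
  classical
  have n1 : a ≠ b := fun h => hab (h ▸ bal_refl σ a)
  have n2 : a ≠ c := fun h => hac (h ▸ bal_refl σ a)
  have n3 : b ≠ c := fun h => hbc (h ▸ bal_refl σ b)
  set T : Finset (Fin r) := {a, b, c} with hT
  have hTcard : T.card = 3 := by
    rw [hT]
    exact Finset.card_eq_three.mpr ⟨a, b, c, n1, n2, n3, rfl⟩
  have h2 := two_mul_negCount σ
  have hsplit : ∀ f : Fin r → ℕ, ∑ x, f x = ∑ x ∈ T, f x + ∑ x ∈ univ \ T, f x := by
    intro f
    rw [add_comm, Finset.sum_sdiff (Finset.subset_univ T)]
  have hTsum : ∀ f : Fin r → ℕ, ∑ x ∈ T, f x = f a + f b + f c := by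
    intro f
    rw [hT, Finset.sum_insert (by simp [n1, n2]), Finset.sum_pair n3]
    ring
  have hrest : ∀ x, 2 * (s - 1) ≤ ∑ y ∈ T, cost σ x y := by
    intro x
    rw [hTsum]
    exact two_cost σ a b c x hab hac hbc
  have htrip := triple_cost σ a b c hab hac hbc
  have hTc : (univ \ T).card = r - 3 := by
    rw [Finset.card_sdiff_of_subset (Finset.subset_univ _), hTcard]
    simp
  have hTT : ∑ x ∈ T, ∑ y ∈ T, cost σ x y = 2 * (cost σ a b + cost σ a c + cost σ b c) := by
    rw [hTsum, hTsum, hTsum, hTsum, cost_self, cost_self, cost_self, cost_comm σ b a,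
      cost_comm σ c a, cost_comm σ c b]
    ring
  have hout : (r - 3) * (2 * (s - 1)) ≤ ∑ x ∈ univ \ T, ∑ y ∈ T, cost σ x y := by
    rw [← hTc, ← smul_eq_mul]
    exact Finset.card_nsmul_le_sum _ _ _ (fun x _ => hrest x)
  have hout' : ∑ x ∈ T, ∑ y ∈ univ \ T, cost σ x y = ∑ x ∈ univ \ T, ∑ y ∈ T, cost σ x y := by
    rw [Finset.sum_comm]
    exact Finset.sum_congr rfl (fun x _ => Finset.sum_congr rfl (fun y _ => cost_comm σ y x))
  have htotal : ∑ x, ∑ y, cost σ x y = ∑ x ∈ T, ∑ y ∈ T, cost σ x y +
      ∑ x ∈ T, ∑ y ∈ univ \ T, cost σ x y + (∑ x ∈ univ \ T, ∑ y ∈ T, cost σ x y +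
      ∑ x ∈ univ \ T, ∑ y ∈ univ \ T, cost σ x y) := by
    rw [hsplit (fun x => ∑ y, cost σ x y), ← Finset.sum_add_distrib, ← Finset.sum_add_distrib]
    congr 1
    · exact Finset.sum_congr rfl (fun x _ => hsplit _)
    · exact Finset.sum_congr rfl (fun x _ => hsplit _)
  rw [htotal, hTT, hout'] at h2
  have e1 : (r - 3) * (2 * (s - 1)) = 2 * (r - 3) * (s - 1) := by ring
  rw [e1] at hout
  omega

/-- With at most two classes of rows, the number of negative 4-circles is a product. -/
lemma product_of_two (σ : Fin r → Fin s → ℤˣ) (a b : Fin r) (hab : ¬ Bal σ a b)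
    (hall : ∀ x, Bal σ x a ∨ Bal σ x b) :
    ∃ m ≤ r, ∃ d ≤ s, negCount 4 σ = m * (r - m) * (d * (s - d)) := by
  classical
  set A : Finset (Fin r) := univ.filter (fun x => Bal σ x a) with hA
  have hAle : A.card ≤ r := by
    calc _ ≤ (univ : Finset (Fin r)).card := Finset.card_le_card (Finset.subset_univ _)
      _ = r := by simp
  refine ⟨A.card, hAle, (diffSet σ a b).card, card_diffSet_le σ a b, ?_⟩
  have h2 := two_mul_negCount σ
  have hmem : ∀ x, x ∈ A ↔ Bal σ x a := fun x => by simp [hA]
  have hcost : ∀ x y, cost σ x y = (if x ∈ A then (if y ∈ A then 0 else cost σ a b) else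
      (if y ∈ A then cost σ a b else 0)) := by
    intro x y
    by_cases hx : x ∈ A
    · by_cases hy : y ∈ A
      · rw [if_pos hx, if_pos hy]
        exact cost_eq_zero_of_bal (((hmem x).mp hx).trans ((hmem y).mp hy).symm)
      · rw [if_pos hx, if_neg hy]
        have hy' : Bal σ y b := by
          rcases hall y with h | h
          · exact absurd ((hmem y).mpr h) hy
          · exact h
        exact cost_congr ((hmem x).mp hx) hy'
    · have hx' : Bal σ x b := by
        rcases hall x with h | h
        · exact absurd ((hmem x).mpr h) hx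
        · exact h
      by_cases hy : y ∈ A
      · rw [if_neg hx, if_pos hy, cost_congr hx' ((hmem y).mp hy), cost_comm]
      · rw [if_neg hx, if_neg hy]
        have hy' : Bal σ y b := by
          rcases hall y with h | h
          · exact absurd ((hmem y).mpr h) hy
          · exact h
        exact cost_eq_zero_of_bal (hx'.trans hy'.symm)
  rw [Finset.sum_congr rfl (fun x _ => Finset.sum_congr rfl (fun y _ => hcost x y))] at h2
  have hAc : (univ.filter (fun y => y ∉ A)).card = r - A.card := by
    have := Finset.card_filter_add_card_filter_not (s := (univ : Finset (Fin r))) (fun y => y ∈ A)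
    have h3 : (univ.filter (fun y => y ∈ A)).card = A.card := by
      congr 1
      ext y
      simp
    simp only [Finset.card_univ, Fintype.card_fin] at this
    omega
  have hAA : (univ.filter (fun y => y ∈ A)).card = A.card := by
    congr 1
    ext y
    simp
  have s1 : ∑ x : Fin r, ∑ y : Fin r, (if x ∈ A then (if y ∈ A then 0 else cost σ a b) else
      (if y ∈ A then cost σ a b else 0)) = ∑ x : Fin r, (if x ∈ A then (r - A.card) * cost σ a b
        else A.card * cost σ a b) := by
    apply Finset.sum_congr rfl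
    intro x _
    by_cases hx : x ∈ A
    · simp only [if_pos hx]
      have : ∀ y : Fin r, (if y ∈ A then 0 else cost σ a b) =
          (if y ∉ A then cost σ a b else 0) := by
        intro y
        by_cases hy : y ∈ A <;> simp [hy]
      simp_rw [this]
      rw [← Finset.sum_filter, Finset.sum_const, hAc, smul_eq_mul]
    · simp only [if_neg hx]
      rw [← Finset.sum_filter, Finset.sum_const, hAA, smul_eq_mul]
  rw [s1, ← Finset.sum_filter_add_sum_filter_not univ (fun x => x ∈ A)] at h2
  have s2 : ∑ x ∈ univ.filter (fun x => x ∈ A), (if x ∈ A then (r - A.card) * cost σ a b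
        else A.card * cost σ a b) = A.card * ((r - A.card) * cost σ a b) := by
    rw [Finset.sum_congr rfl (g := fun _ => (r - A.card) * cost σ a b)
      (fun x hx => if_pos (Finset.mem_filter.mp hx).2), Finset.sum_const, hAA, smul_eq_mul]
  have s3 : ∑ x ∈ univ.filter (fun x => ¬ x ∈ A), (if x ∈ A then (r - A.card) * cost σ a b
        else A.card * cost σ a b) = (r - A.card) * (A.card * cost σ a b) := by
    rw [Finset.sum_congr rfl (g := fun _ => A.card * cost σ a b)
      (fun x hx => if_neg (Finset.mem_filter.mp hx).2), Finset.sum_const, hAc, smul_eq_mul]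
  rw [s2, s3] at h2
  have : cost σ a b = (diffSet σ a b).card * (s - (diffSet σ a b).card) := rfl
  rw [← this]
  nlinarith

/-- The dichotomy. -/
theorem dichotomy (hr : 2 ≤ r) (hs : 2 ≤ s) (σ : Fin r → Fin s → ℤˣ) :
    (∃ m ≤ r, ∃ d ≤ s, negCount 4 σ = m * (r - m) * (d * (s - d))) ∨
      2 * ((r - 1) * (s - 1)) - 2 ≤ negCount 4 σ := by
  by_cases h1 : ∀ a b, Bal σ a b
  · left
    refine ⟨0, by omega, 0, by omega, ?_⟩
    have h2 := two_mul_negCount σ
    have : ∑ a : Fin r, ∑ b : Fin r, cost σ a b = 0 :=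
      Finset.sum_eq_zero (fun a _ => Finset.sum_eq_zero (fun b _ => cost_eq_zero_of_bal (h1 a b)))
    rw [this] at h2
    omega
  · push Not at h1
    obtain ⟨a, b, hab⟩ := h1
    by_cases h2 : ∀ x, Bal σ x a ∨ Bal σ x b
    · left
      exact product_of_two σ a b hab h2
    · right
      push Not at h2
      obtain ⟨c, hca, hcb⟩ := h2
      have h3 := many_of_three σ a b c hab (fun h => hca h.symm) (fun h => hcb h.symm)
      have hr3 : 3 ≤ r := by
        have n1 : a ≠ b := fun h => hab (h ▸ bal_refl σ a)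
        have n2 : a ≠ c := fun h => hca (h ▸ bal_refl σ a)
        have n3 : b ≠ c := fun h => hcb (h ▸ bal_refl σ b)
        have hc : ({a, b, c} : Finset (Fin r)).card = 3 :=
          Finset.card_eq_three.mpr ⟨a, b, c, n1, n2, n3, rfl⟩
        have := Finset.card_le_card (Finset.subset_univ ({a, b, c} : Finset (Fin r)))
        rw [hc] at this
        simpa using this
      obtain ⟨t, rfl⟩ : ∃ t, r = t + 3 := ⟨r - 3, by omega⟩
      obtain ⟨u, rfl⟩ : ∃ u, s = u + 2 := ⟨s - 2, by omega⟩
      have e1 : t + 3 - 3 = t := by omega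
      have e2 : u + 2 - 1 = u + 1 := by omega
      have e3 : t + 3 - 1 = t + 2 := by omega
      rw [e1, e2] at h3
      rw [e2, e3]
      have e4 : 2 * ((t + 2) * (u + 1)) = 2 * t * (u + 1) + 4 * (u + 1) := by ring
      omega

end Pool.Agent.H20.Neg
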