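import Mathlib

/-!
# Negative circles of signed complete bipartite graphs: definitions
-/

namespace Pool.Agent.H20.Neg

variable {r s : ℕ}

/-- The subgraph of `K_{r,s}` with edge set `F`, as a graph on all the vertices. An edge of
`K_{r,s}` is a pair (row vertex, column vertex). -/
def edgeGraph (F : Finset (Fin r × Fin s)) : SimpleGraph (Fin r ⊕ Fin s) :=
  SimpleGraph.fromRel (fun u v => ∃ e ∈ F, u = Sum.inl e.1 ∧ v = Sum.inr e.2)

/-- `F` is the edge set of a circle of `K_{r,s}`: a nonempty set of edges such that each vertex
lies on no edge or on exactly two edges of `F`, and any two vertices lying on edges of `F` are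
joined by a path of `F` (it is enough to ask this for row vertices, as every edge of `F` contains
one). -/
structure IsCircle (F : Finset (Fin r × Fin s)) : Prop where
  nonempty : F.Nonempty
  row : ∀ i : Fin r, (F.filter (fun e => e.1 = i)).card = 0 ∨ (F.filter (fun e => e.1 = i)).card = 2
  col : ∀ j : Fin s, (F.filter (fun e => e.2 = j)).card = 0 ∨ (F.filter (fun e => e.2 = j)).card = 2
  connected : ∀ e ∈ F, ∀ f ∈ F, (edgeGraph F).Reachable (Sum.inl e.1) (Sum.inl f.1)

/-- The number of negative circles of length `l` of the signature `σ` of `K_{r,s}`: the circles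
with `l` edges whose product of signs is `-1`. -/
noncomputable def negCount (l : ℕ) (σ : Fin r → Fin s → ℤˣ) : ℕ :=
  Set.ncard {F : Finset (Fin r × Fin s) |
    IsCircle F ∧ F.card = l ∧ ∏ e ∈ F, σ e.1 e.2 = -1}

/-- `S_l(r,s)`: the set of the numbers of negative circles of length `l` of all signatures of
`K_{r,s}`. -/
def S (l r s : ℕ) : Set ℕ := {c | ∃ σ : Fin r → Fin s → ℤˣ, negCount l σ = c}

end Pool.Agent.H20.Neg
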