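import Pool.Agent.H20.Neg.Defs

/-!
# Circles of length 4
-/

namespace Pool.Agent.H20.Neg

open Finset

variable {r s : ℕ}

lemma adj_of_mem (F : Finset (Fin r × Fin s)) (i : Fin r) (j : Fin s) (h : (i, j) ∈ F) :
    (edgeGraph F).Adj (Sum.inl i) (Sum.inr j) := by
  rw [edgeGraph, SimpleGraph.fromRel_adj]
  exact ⟨by simp, Or.inl ⟨(i, j), h, rfl, rfl⟩⟩

lemma sum_row_card (F : Finset (Fin r × Fin s)) :
    F.card = ∑ i : Fin r, (F.filter (fun e => e.1 = i)).card := by
  exact Finset.card_eq_sum_card_fiberwise (fun _ _ => Finset.mem_coe.mpr (Finset.mem_univ _))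

lemma sum_col_card (F : Finset (Fin r × Fin s)) :
    F.card = ∑ j : Fin s, (F.filter (fun e => e.2 = j)).card := by
  exact Finset.card_eq_sum_card_fiberwise (fun _ _ => Finset.mem_coe.mpr (Finset.mem_univ _))

/-- the rows met by `F` -/
def rows (F : Finset (Fin r × Fin s)) : Finset (Fin r) := F.image Prod.fst

/-- the columns met by `F` -/
def cols (F : Finset (Fin r × Fin s)) : Finset (Fin s) := F.image Prod.snd

lemma two_mul_rows (F : Finset (Fin r × Fin s)) (h : IsCircle F) :
    F.card = 2 * (rows F).card := by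
  rw [Finset.card_eq_sum_card_fiberwise (f := Prod.fst) (t := rows F)
    (fun e he => Finset.mem_coe.mpr (Finset.mem_image_of_mem _ he)), mul_comm,
    ← smul_eq_mul, ← Finset.sum_const]
  apply Finset.sum_congr rfl
  intro i hi
  rcases h.row i with h0 | h2
  · exfalso
    obtain ⟨e, he, rfl⟩ := Finset.mem_image.mp hi
    rw [Finset.card_eq_zero, Finset.filter_eq_empty_iff] at h0
    exact h0 he rfl
  · exact h2

lemma two_mul_cols (F : Finset (Fin r × Fin s)) (h : IsCircle F) :
    F.card = 2 * (cols F).card := by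
  rw [Finset.card_eq_sum_card_fiberwise (f := Prod.snd) (t := cols F)
    (fun e he => Finset.mem_coe.mpr (Finset.mem_image_of_mem _ he)), mul_comm,
    ← smul_eq_mul, ← Finset.sum_const]
  apply Finset.sum_congr rfl
  intro i hi
  rcases h.col i with h0 | h2
  · exfalso
    obtain ⟨e, he, rfl⟩ := Finset.mem_image.mp hi
    rw [Finset.card_eq_zero, Finset.filter_eq_empty_iff] at h0
    exact h0 he rfl
  · exact h2

lemma subset_rows_cols (F : Finset (Fin r × Fin s)) : F ⊆ rows F ×ˢ cols F := by
  intro e he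
  rw [Finset.mem_product]
  exact ⟨Finset.mem_image_of_mem _ he, Finset.mem_image_of_mem _ he⟩

lemma eq_product_of_card_four (F : Finset (Fin r × Fin s)) (h : IsCircle F) (h4 : F.card = 4) :
    (rows F).card = 2 ∧ (cols F).card = 2 ∧ F = rows F ×ˢ cols F := by
  have h1 := two_mul_rows F h
  have h2 := two_mul_cols F h
  refine ⟨by omega, by omega, ?_⟩
  apply Finset.eq_of_subset_of_card_le (subset_rows_cols F)
  rw [Finset.card_product]
  have : (rows F).card = 2 := by omega
  have : (cols F).card = 2 := by omega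
  simp [*]

lemma filter_fst_product (A : Finset (Fin r)) (B : Finset (Fin s)) (i : Fin r) :
    ((A ×ˢ B).filter (fun e => e.1 = i)).card = if i ∈ A then B.card else 0 := by
  split_ifs with h
  · have : (A ×ˢ B).filter (fun e => e.1 = i) = {i} ×ˢ B := by
      ext ⟨a, b⟩
      simp only [Finset.mem_filter, Finset.mem_product, Finset.mem_singleton]
      constructor
      · rintro ⟨⟨h1, h2⟩, rfl⟩
        exact ⟨rfl, h2⟩
      · rintro ⟨rfl, h2⟩
        exact ⟨⟨h, h2⟩, rfl⟩
    rw [this, Finset.card_product, Finset.card_singleton, one_mul]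
  · rw [Finset.card_eq_zero, Finset.filter_eq_empty_iff]
    rintro ⟨a, b⟩ hab rfl
    exact h (Finset.mem_product.mp hab).1

lemma filter_snd_product (A : Finset (Fin r)) (B : Finset (Fin s)) (j : Fin s) :
    ((A ×ˢ B).filter (fun e => e.2 = j)).card = if j ∈ B then A.card else 0 := by
  split_ifs with h
  · have : (A ×ˢ B).filter (fun e => e.2 = j) = A ×ˢ {j} := by
      ext ⟨a, b⟩
      simp only [Finset.mem_filter, Finset.mem_product, Finset.mem_singleton]
      constructor
      · rintro ⟨⟨h1, h2⟩, rfl⟩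
        exact ⟨h1, rfl⟩
      · rintro ⟨h2, rfl⟩
        exact ⟨⟨h2, h⟩, rfl⟩
    rw [this, Finset.card_product, Finset.card_singleton, mul_one]
  · rw [Finset.card_eq_zero, Finset.filter_eq_empty_iff]
    rintro ⟨a, b⟩ hab rfl
    exact h (Finset.mem_product.mp hab).2

lemma isCircle_product (A : Finset (Fin r)) (B : Finset (Fin s)) (hA : A.card = 2)
    (hB : B.card = 2) : IsCircle (A ×ˢ B) := by
  have hA' : A.Nonempty := Finset.card_pos.mp (by omega)
  have hB' : B.Nonempty := Finset.card_pos.mp (by omega)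
  obtain ⟨b, hb⟩ := hB'
  refine ⟨hA'.product ⟨b, hb⟩, ?_, ?_, ?_⟩
  · intro i
    rw [filter_fst_product]
    split_ifs
    · exact Or.inr hB
    · exact Or.inl rfl
  · intro j
    rw [filter_snd_product]
    split_ifs
    · exact Or.inr hA
    · exact Or.inl rfl
  · intro e he f hf
    have h1 := (Finset.mem_product.mp he).1
    have h2 := (Finset.mem_product.mp hf).1
    have a1 := adj_of_mem (A ×ˢ B) e.1 b (Finset.mem_product.mpr ⟨h1, hb⟩)
    have a2 := adj_of_mem (A ×ˢ B) f.1 b (Finset.mem_product.mpr ⟨h2, hb⟩)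
    exact a1.reachable.trans a2.reachable.symm

lemma rows_product (A : Finset (Fin r)) (B : Finset (Fin s)) (hB : B.Nonempty) :
    rows (A ×ˢ B) = A := by
  obtain ⟨b, hb⟩ := hB
  ext i
  simp only [rows, Finset.mem_image, Finset.mem_product, Prod.exists, exists_and_right,
    exists_eq_right]
  exact ⟨fun ⟨x, h⟩ => h.1, fun h => ⟨b, h, hb⟩⟩

lemma cols_product (A : Finset (Fin r)) (B : Finset (Fin s)) (hA : A.Nonempty) :
    cols (A ×ˢ B) = B := by
  obtain ⟨a, ha⟩ := hA
  ext i
  simp only [cols, Finset.mem_image, Finset.mem_product, Prod.exists]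
  constructor
  · rintro ⟨x, y, h, rfl⟩
    exact h.2
  · intro h
    exact ⟨a, i, ⟨ha, h⟩, rfl⟩

/-- the column sign of a pair of rows -/
def eps (σ : Fin r → Fin s → ℤˣ) (A : Finset (Fin r)) (j : Fin s) : ℤˣ := ∏ i ∈ A, σ i j

/-- the negative circles of length 4 as pairs -/
lemma negCount_four (σ : Fin r → Fin s → ℤˣ) :
    negCount 4 σ = ∑ A ∈ (univ : Finset (Fin r)).powersetCard 2,
      (((univ : Finset (Fin s)).powersetCard 2).filter (fun B => ∏ j ∈ B, eps σ A j = -1)).card := by
  classical
  have hset : {F : Finset (Fin r × Fin s) |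
      IsCircle F ∧ F.card = 4 ∧ ∏ e ∈ F, σ e.1 e.2 = -1} =
      ((((univ : Finset (Fin r)).powersetCard 2).sigma (fun A =>
        ((univ : Finset (Fin s)).powersetCard 2).filter
          (fun B => ∏ j ∈ B, eps σ A j = -1))).image
        (fun p => p.1 ×ˢ p.2) : Finset (Finset (Fin r × Fin s))) := by
    ext F
    simp only [Set.mem_ofPred_eq, Finset.coe_image, Set.mem_image, Finset.mem_coe,
      Finset.mem_sigma, Finset.mem_powersetCard, Finset.mem_filter, Finset.subset_univ, true_and]
    constructor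
    · rintro ⟨h, h4, hs⟩
      obtain ⟨h1, h2, h3⟩ := eq_product_of_card_four F h h4
      refine ⟨⟨rows F, cols F⟩, ⟨h1, h2, ?_⟩, h3.symm⟩
      rw [h3, Finset.prod_product_right] at hs
      exact hs
    · rintro ⟨⟨A, B⟩, ⟨h1, h2, h3⟩, rfl⟩
      refine ⟨isCircle_product A B h1 h2, ?_, ?_⟩
      · rw [Finset.card_product]
        simp only at h1 h2
        rw [h1, h2]
      · rw [Finset.prod_product_right]
        exact h3
  rw [negCount, hset, Set.ncard_coe_finset, Finset.card_image_of_injOn, Finset.card_sigma]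
  rintro ⟨A, B⟩ h ⟨A', B'⟩ h' heq
  simp only [Finset.coe_sigma, Set.mem_sigma_iff, Finset.mem_coe, Finset.mem_powersetCard,
    Finset.subset_univ, true_and, Finset.mem_filter] at h h' heq
  have hA : A.Nonempty := Finset.card_pos.mp (by omega)
  have hB : B.Nonempty := Finset.card_pos.mp (by omega)
  have hA' : A'.Nonempty := Finset.card_pos.mp (by omega)
  have hB' : B'.Nonempty := Finset.card_pos.mp (by omega)
  have e1 : A = A' := by
    rw [← rows_product A B hB, heq, rows_product A' B' hB']
  have e2 : B = B' := by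
    rw [← cols_product A B hA, heq, cols_product A' B' hA']
  subst e1 e2
  rfl

end Pool.Agent.H20.Neg
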