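import Pool.Agent.H20.Neg.Four

/-!
# Counting negative pairs
-/

namespace Pool.Agent.H20.Neg

open Finset

variable {r s : ℕ}

/-- the number of columns of sign `-1` -/
def dcount (e : Fin s → ℤˣ) : ℕ := ((univ : Finset (Fin s)).filter (fun j => e j = -1)).card

lemma dcount_le (e : Fin s → ℤˣ) : dcount e ≤ s := by
  unfold dcount
  calc _ ≤ (univ : Finset (Fin s)).card := Finset.card_filter_le _ _
    _ = s := by simp

lemma card_neg_pairs (e : Fin s → ℤˣ) :
    (((univ : Finset (Fin s)).powersetCard 2).filter (fun B => ∏ j ∈ B, e j = -1)).card =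
      dcount e * (s - dcount e) := by
  classical
  set T := (univ : Finset (Fin s)).filter (fun j => e j = -1) with hT
  have hTc : (univ \ T).card = s - dcount e := by
    rw [Finset.card_sdiff_of_subset (Finset.subset_univ _)]
    simp [dcount, hT]
  have hmemT : ∀ j, j ∈ T ↔ e j = -1 := fun j => by simp [hT]
  have hset : ((univ : Finset (Fin s)).powersetCard 2).filter (fun B => ∏ j ∈ B, e j = -1) =
      (T ×ˢ (univ \ T)).image (fun p => ({p.1, p.2} : Finset (Fin s))) := by
    ext B
    simp only [Finset.mem_filter, Finset.mem_powersetCard, Finset.subset_univ, true_and,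
      Finset.mem_image, Finset.mem_product, Finset.mem_sdiff, Finset.mem_univ, Prod.exists]
    constructor
    · rintro ⟨h2, hp⟩
      obtain ⟨x, y, hxy, rfl⟩ := Finset.card_eq_two.mp h2
      rw [Finset.prod_pair hxy] at hp
      rcases Int.units_eq_one_or (e x) with hx | hx
      · have hy : e y = -1 := by rw [hx, one_mul] at hp; exact hp
        refine ⟨y, x, ⟨(hmemT y).mpr hy, ?_⟩, Finset.pair_comm y x⟩
        rw [hmemT, hx]
        decide
      · refine ⟨x, y, ⟨(hmemT x).mpr hx, ?_⟩, rfl⟩
        rw [hmemT]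
        intro hy
        rw [hx, hy] at hp
        exact absurd hp (by decide)
    · rintro ⟨x, y, ⟨hx, hy⟩, rfl⟩
      have hxy : x ≠ y := fun h => hy (h ▸ hx)
      rw [hmemT] at hx hy
      refine ⟨Finset.card_pair hxy, ?_⟩
      rw [Finset.prod_pair hxy, hx]
      rcases Int.units_eq_one_or (e y) with h | h
      · rw [h]; rfl
      · exact absurd h hy
  rw [hset, Finset.card_image_of_injOn, Finset.card_product, hTc]
  · rfl
  · rintro ⟨x, y⟩ hp ⟨x', y'⟩ hp' heq
    simp only [Finset.coe_product, Set.mem_prod, Finset.mem_coe, Finset.mem_sdiff,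
      Finset.mem_univ, true_and] at hp hp' heq
    have hx' : x' ∈ ({x, y} : Finset (Fin s)) := by rw [heq]; simp
    have hy' : y' ∈ ({x, y} : Finset (Fin s)) := by rw [heq]; simp
    rw [Finset.mem_insert, Finset.mem_singleton] at hx' hy'
    have e1 : x' = x := by
      rcases hx' with h | h
      · exact h
      · exact absurd (h ▸ hp'.1) hp.2
    have e2 : y' = y := by
      rcases hy' with h | h
      · exact absurd (h ▸ hp.1) hp'.2
      · exact h
    rw [e1, e2]

lemma sum_eq_dcount (e : Fin s → ℤˣ) : ∑ j, ((e j : ℤˣ) : ℤ) = (s : ℤ) - 2 * dcount e := by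
  have h1 : ∀ j, ((e j : ℤˣ) : ℤ) = 1 - 2 * (if e j = -1 then 1 else 0) := by
    intro j
    rcases Int.units_eq_one_or (e j) with h | h
    · rw [h, if_neg (by decide)]
      simp
    · rw [h, if_pos rfl]
      simp
  simp_rw [h1]
  rw [Finset.sum_sub_distrib, ← Finset.mul_sum, Finset.sum_boole]
  simp [dcount]

lemma four_mul_pairs (e : Fin s → ℤˣ) :
    (4 * (dcount e * (s - dcount e)) : ℕ) = (s : ℤ) ^ 2 - (∑ j, ((e j : ℤˣ) : ℤ)) ^ 2 := by
  rw [sum_eq_dcount]
  have h := dcount_le e
  push_cast [Nat.cast_sub h]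
  ring

lemma negCount_four' (σ : Fin r → Fin s → ℤˣ) :
    negCount 4 σ = ∑ A ∈ (univ : Finset (Fin r)).powersetCard 2,
      dcount (eps σ A) * (s - dcount (eps σ A)) := by
  rw [negCount_four]
  exact Finset.sum_congr rfl (fun A _ => card_neg_pairs _)

/-- The number of negative 4-circles through the row products. -/
lemma four_mul_negCount (σ : Fin r → Fin s → ℤˣ) :
    (4 * (negCount 4 σ : ℤ)) = ∑ A ∈ (univ : Finset (Fin r)).powersetCard 2,
      ((s : ℤ) ^ 2 - (∑ j, ((eps σ A j : ℤˣ) : ℤ)) ^ 2) := by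
  rw [negCount_four']
  push_cast
  rw [Finset.mul_sum]
  apply Finset.sum_congr rfl
  intro A _
  have := four_mul_pairs (eps σ A)
  push_cast at this
  exact this

end Pool.Agent.H20.Neg
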