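import Pool.Agent.H20.Neg.BottomMain

/-!
# Realization of elements of `S_4(r,s)`
-/

set_option linter.unusedSimpArgs false

namespace Pool.Agent.H20.Neg

open Finset

variable {r s : ℕ}

lemma two_mul_card_diffSet (σ : Fin r → Fin s → ℤˣ) (a b : Fin r) :
    (2 * ((diffSet σ a b).card : ℤ)) = s - ∑ j, ((σ a j : ℤˣ) : ℤ) * ((σ b j : ℤˣ) : ℤ) := by
  have h1 : ∀ j, ((σ a j : ℤˣ) : ℤ) * ((σ b j : ℤˣ) : ℤ) =
      1 - 2 * (if σ a j ≠ σ b j then 1 else 0) := by
    intro j
    rcases Int.units_eq_one_or (σ a j) with h | h <;> rcases Int.units_eq_one_or (σ b j) with h' | h' <;>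
      rw [h, h'] <;> decide
  simp_rw [h1]
  rw [Finset.sum_sub_distrib, ← Finset.mul_sum, Finset.sum_boole]
  simp [diffSet]

lemma cost_of_card {σ : Fin r → Fin s → ℤˣ} {a b : Fin r} {d e : ℕ} (hs : s = d + e)
    (h : (∑ j, ((σ a j : ℤˣ) : ℤ) * ((σ b j : ℤˣ) : ℤ)) = e - d) : cost σ a b = d * e := by
  have h1 := two_mul_card_diffSet σ a b
  rw [h] at h1
  have h2 : (diffSet σ a b).card = d := by omega
  have h3 : s - d = e := by omega
  rw [cost, h2, h3]

lemma mem_product_value (m n d e : ℕ) : m * n * (d * e) ∈ S 4 (m + n) (d + e) := by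
  let σ : Fin (m + n) → Fin (d + e) → ℤˣ :=
    Fin.append (fun _ : Fin m => Fin.append (fun _ : Fin d => -1) (fun _ : Fin e => 1))
      (fun _ : Fin n => fun _ => 1)
  refine ⟨σ, ?_⟩
  have h2 := two_mul_negCount σ
  have c1 : ∀ a b : Fin m, cost σ (Fin.castAdd n a) (Fin.castAdd n b) = 0 := by
    intro a b
    apply cost_eq_zero_of_bal
    rw [bal_iff]
    left
    intro j
    simp [σ]
  have c2 : ∀ a b : Fin n, cost σ (Fin.natAdd m a) (Fin.natAdd m b) = 0 := by
    intro a b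
    apply cost_eq_zero_of_bal
    rw [bal_iff]
    left
    intro j
    simp [σ]
  have c3 : ∀ (a : Fin m) (b : Fin n), cost σ (Fin.castAdd n a) (Fin.natAdd m b) = d * e := by
    intro a b
    apply cost_of_card rfl
    rw [Fin.sum_univ_add]
    simp only [σ, Fin.append_left, Fin.append_right]
    simp
    ring
  have c4 : ∀ (a : Fin n) (b : Fin m), cost σ (Fin.natAdd m a) (Fin.castAdd n b) = d * e := by
    intro a b
    rw [cost_comm, c3]
  simp only [Fin.sum_univ_add, c1, c2, c3, c4] at h2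
  simp at h2
  nlinarith

lemma mem_two_value (n e : ℕ) : 2 * ((n + 1) * (e + 1)) - 2 ∈ S 4 (2 + n) (2 + e) := by
  let σ : Fin (2 + n) → Fin (2 + e) → ℤˣ :=
    Fin.append (![Fin.append ![-1, 1] (fun _ : Fin e => 1), Fin.append ![1, -1] (fun _ : Fin e => 1)])
      (fun _ : Fin n => fun _ => 1)
  refine ⟨σ, ?_⟩
  have h2 := two_mul_negCount σ
  have c0 : cost σ (Fin.castAdd n 0) (Fin.castAdd n 1) = 2 * e := by
    apply cost_of_card rfl
    rw [Fin.sum_univ_add]
    simp only [σ, Fin.append_left, Fin.append_right, Matrix.cons_val_zero, Matrix.cons_val_one,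
      Fin.sum_univ_two]
    simp
    ring
  have c0' : cost σ (Fin.castAdd n 1) (Fin.castAdd n 0) = 2 * e := by
    rw [cost_comm, c0]
  have c2 : ∀ a b : Fin n, cost σ (Fin.natAdd 2 a) (Fin.natAdd 2 b) = 0 := by
    intro a b
    apply cost_eq_zero_of_bal
    rw [bal_iff]
    left
    intro j
    simp [σ]
  have c3 : ∀ b : Fin n, cost σ (Fin.castAdd n 0) (Fin.natAdd 2 b) = 1 * (1 + e) := by
    intro b
    apply cost_of_card (by ring)
    rw [Fin.sum_univ_add]
    simp only [σ, Fin.append_left, Fin.append_right, Matrix.cons_val_zero, Matrix.cons_val_one,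
      Fin.sum_univ_two]
    simp
  have c4 : ∀ b : Fin n, cost σ (Fin.castAdd n 1) (Fin.natAdd 2 b) = 1 * (1 + e) := by
    intro b
    apply cost_of_card (by ring)
    rw [Fin.sum_univ_add]
    simp only [σ, Fin.append_left, Fin.append_right, Matrix.cons_val_zero, Matrix.cons_val_one,
      Fin.sum_univ_two]
    simp
  have c3' : ∀ b : Fin n, cost σ (Fin.natAdd 2 b) (Fin.castAdd n 0) = 1 * (1 + e) := by
    intro b
    rw [cost_comm, c3]
  have c4' : ∀ b : Fin n, cost σ (Fin.natAdd 2 b) (Fin.castAdd n 1) = 1 * (1 + e) := by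
    intro b
    rw [cost_comm, c4]
  simp only [Fin.sum_univ_add, Fin.sum_univ_two, c0, c0', c2, c3, c4, c3', c4', cost_self] at h2
  simp at h2
  have : 2 * ((n + 1) * (e + 1)) = 2 * (n * (1 + e)) + 2 * e + 2 := by ring
  rw [this]
  have h3 : 2 * negCount 4 σ = 2 * (2 * (n * (1 + e)) + 2 * e) := by
    rw [h2]
    ring
  omega

/-- The elements of `S_4(r,s)` below `2(r-1)(s-1) - 2`. -/
theorem bottom (r s : ℕ) (hr : 2 ≤ r) (hs : 2 ≤ s) :
    (∀ m ≤ r, ∀ d ≤ s, m * (r - m) * (d * (s - d)) ∈ S 4 r s) ∧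
    2 * ((r - 1) * (s - 1)) - 2 ∈ S 4 r s ∧
    ∀ c ∈ S 4 r s, c < 2 * ((r - 1) * (s - 1)) - 2 →
      ∃ m ≤ r, ∃ d ≤ s, c = m * (r - m) * (d * (s - d)) := by
  refine ⟨?_, ?_, ?_⟩
  · intro m hm d hd
    have h := mem_product_value m (r - m) d (s - d)
    rwa [Nat.add_sub_cancel' hm, Nat.add_sub_cancel' hd] at h
  · have h := mem_two_value (r - 2) (s - 2)
    have e1 : r - 2 + 1 = r - 1 := by omega
    have e2 : s - 2 + 1 = s - 1 := by omega
    have e3 : 2 + (r - 2) = r := by omega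
    have e4 : 2 + (s - 2) = s := by omega
    rwa [e1, e2, e3, e4] at h
  · rintro c ⟨σ, rfl⟩ hc
    rcases dichotomy hr hs σ with h | h
    · exact h
    · omega

/-- The value `binom(r,2) s² / 4` is attained exactly when there are `r` pairwise orthogonal
sign vectors of length `s`; and no element of `S_4(r,s)` is larger. -/
theorem top (r s : ℕ) :
    (∀ c ∈ S 4 r s, 8 * c ≤ r * (r - 1) * s ^ 2) ∧
    ∀ c : ℕ, 8 * c = r * (r - 1) * s ^ 2 → (c ∈ S 4 r s ↔
      ∃ v : Fin r → Fin s → ℤˣ, ∀ a b : Fin r, a ≠ b →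
        ∑ j, ((v a j : ℤˣ) : ℤ) * ((v b j : ℤˣ) : ℤ) = 0) := by
  have hcard : ((univ : Finset (Fin r)).powersetCard 2).card = r.choose 2 := by simp
  have hch : (2 * (r.choose 2 : ℤ)) = r * ((r : ℤ) - 1) := by
    have := Nat.choose_two_right r
    have h2 : 2 * r.choose 2 = r * (r - 1) := by
      rw [this, Nat.mul_div_cancel' (Nat.even_mul_pred_self r).two_dvd]
    rcases Nat.eq_zero_or_pos r with h0 | h0
    · subst h0; simp
    · have h3 : ((r - 1 : ℕ) : ℤ) = (r : ℤ) - 1 := by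
        rw [Nat.cast_sub (by omega)]; simp
      rw [← h3]
      exact_mod_cast h2
  have hcast : ((r * (r - 1) * s ^ 2 : ℕ) : ℤ) = r * ((r : ℤ) - 1) * s ^ 2 := by
    rcases Nat.eq_zero_or_pos r with h0 | h0
    · subst h0; simp
    · push_cast [Nat.cast_sub (show 1 ≤ r by omega)]
      ring
  have hform : ∀ σ : Fin r → Fin s → ℤˣ, 8 * (negCount 4 σ : ℤ) = r * ((r : ℤ) - 1) * s ^ 2 -
      2 * ∑ A ∈ (univ : Finset (Fin r)).powersetCard 2,
        (∑ j, ((eps σ A j : ℤˣ) : ℤ)) ^ 2 := by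
    intro σ
    have h := four_mul_negCount σ
    rw [Finset.sum_sub_distrib, Finset.sum_const, hcard, nsmul_eq_mul] at h
    linear_combination 2 * h + (s : ℤ) ^ 2 * hch
  have hnn : ∀ σ : Fin r → Fin s → ℤˣ, 0 ≤ ∑ A ∈ (univ : Finset (Fin r)).powersetCard 2,
      (∑ j, ((eps σ A j : ℤˣ) : ℤ)) ^ 2 := fun σ => Finset.sum_nonneg (fun A _ => sq_nonneg _)
  constructor
  · rintro c ⟨σ, rfl⟩
    have h1 := hform σ
    have h2 := hnn σ
    have : (8 * (negCount 4 σ) : ℤ) ≤ ((r * (r - 1) * s ^ 2 : ℕ) : ℤ) := by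
      rw [hcast]
      linarith
    exact_mod_cast this
  · intro c hc
    have hc' : (8 * c : ℤ) = r * ((r : ℤ) - 1) * s ^ 2 := by
      rw [← hcast]
      exact_mod_cast hc
    have hkey : ∀ σ : Fin r → Fin s → ℤˣ, negCount 4 σ = c ↔ ∀ a b : Fin r, a ≠ b →
        ∑ j, ((σ a j : ℤˣ) : ℤ) * ((σ b j : ℤˣ) : ℤ) = 0 := by
      intro σ
      have h1 := hform σ
      have hiff : negCount 4 σ = c ↔ ∑ A ∈ (univ : Finset (Fin r)).powersetCard 2,
          (∑ j, ((eps σ A j : ℤˣ) : ℤ)) ^ 2 = 0 := by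
        constructor
        · intro h
          rw [h] at h1
          linarith
        · intro h
          rw [h] at h1
          have : (negCount 4 σ : ℤ) = c := by linarith
          exact_mod_cast this
      rw [hiff, Finset.sum_eq_zero_iff_of_nonneg (fun A _ => sq_nonneg _)]
      constructor
      · intro h a b hab
        have := h {a, b} (Finset.mem_powersetCard.mpr ⟨Finset.subset_univ _, Finset.card_pair hab⟩)
        have h3 := pow_eq_zero_iff (two_ne_zero) |>.mp this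
        simp only [eps, Finset.prod_pair hab, Units.val_mul] at h3
        exact h3
      · intro h A hA
        obtain ⟨a, b, hab, rfl⟩ := Finset.card_eq_two.mp (Finset.mem_powersetCard.mp hA).2
        have h3 := h a b hab
        simp only [eps, Finset.prod_pair hab, Units.val_mul]
        rw [h3]
        norm_num
    constructor
    · rintro ⟨σ, hσ⟩
      exact ⟨σ, (hkey σ).mp hσ⟩
    · rintro ⟨v, hv⟩
      exact ⟨v, (hkey v).mpr hv⟩

end Pool.Agent.H20.Neg
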