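import Pool.Agent.H20.Neg.Pairs

/-!
# Circles of length 6 in `K_{3,s}`
-/

namespace Pool.Agent.H20.Neg

open Finset

variable {s : ℕ}

/-- the off-diagonal pairs -/
def offd : Finset (Fin 3 × Fin 3) := (univ : Finset (Fin 3 × Fin 3)).filter (fun p => p.1 ≠ p.2)

lemma offd_fst : ∀ i : Fin 3, (offd.filter (fun p => p.1 = i)).card = 2 := by decide

lemma offd_snd : ∀ m : Fin 3, (offd.filter (fun p => p.2 = m)).card = 2 := by decide

lemma exists_third : ∀ i i' : Fin 3, ∃ m : Fin 3, i ≠ m ∧ i' ≠ m := by decide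

lemma fin_three_eq : ∀ i i' a a' : Fin 3, i ≠ i' → a ≠ i → a ≠ i' → a' ≠ i → a' ≠ i' → a = a' := by
  decide

/-- The hexagon of `K_{3,s}` missing the matching `m ↦ g m`. -/
def hex (g : Fin 3 → Fin s) : Finset (Fin 3 × Fin s) := offd.image (fun p => (p.1, g p.2))

lemma mem_hex (g : Fin 3 → Fin s) (i : Fin 3) (j : Fin s) :
    (i, j) ∈ hex g ↔ ∃ m, i ≠ m ∧ g m = j := by
  simp only [hex, offd, Finset.mem_image, Finset.mem_filter, Finset.mem_univ, true_and,
    Prod.exists, Prod.mk.injEq]
  constructor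
  · rintro ⟨a, b, h, rfl, h2⟩
    exact ⟨b, h, h2⟩
  · rintro ⟨m, h, h2⟩
    exact ⟨i, m, h, rfl, h2⟩

lemma hex_injOn (g : Fin 3 → Fin s) (hg : Function.Injective g) :
    Function.Injective (fun p : Fin 3 × Fin 3 => (p.1, g p.2)) := by
  rintro ⟨a, b⟩ ⟨a', b'⟩ h
  simp only [Prod.mk.injEq] at h
  rw [h.1, hg h.2]

lemma card_hex (g : Fin 3 → Fin s) (hg : Function.Injective g) : (hex g).card = 6 := by
  rw [hex, Finset.card_image_of_injective _ (hex_injOn g hg)]
  decide

lemma prod_hex (g : Fin 3 → Fin s) (hg : Function.Injective g) (σ : Fin 3 → Fin s → ℤˣ) :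
    ∏ e ∈ hex g, σ e.1 e.2 =
      eps σ {1, 2} (g 0) * eps σ {0, 2} (g 1) * eps σ {0, 1} (g 2) := by
  rw [hex, Finset.prod_image (fun a _ b _ h => hex_injOn g hg h)]
  have : offd = {(1, 0), (2, 0), (0, 1), (2, 1), (0, 2), (1, 2)} := by decide
  rw [this]
  simp [eps, Finset.prod_insert, mul_assoc]

lemma isCircle_hex (g : Fin 3 → Fin s) (hg : Function.Injective g) : IsCircle (hex g) := by
  classical
  refine ⟨?_, ?_, ?_, ?_⟩
  · rw [← Finset.card_pos, card_hex g hg]
    norm_num
  · intro i
    right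
    have : (hex g).filter (fun e => e.1 = i) =
        (offd.filter (fun p => p.1 = i)).image (fun p => (p.1, g p.2)) := by
      rw [hex, Finset.filter_image]
    rw [this, Finset.card_image_of_injective _ (hex_injOn g hg)]
    exact offd_fst i
  · intro j
    by_cases h : ∃ m, g m = j
    · obtain ⟨m, rfl⟩ := h
      right
      have : (hex g).filter (fun e => e.2 = g m) =
          (offd.filter (fun p => p.2 = m)).image (fun p => (p.1, g p.2)) := by
        rw [hex, Finset.filter_image]
        congr 1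
        ext p
        simp only [Finset.mem_filter]
        exact and_congr_right (fun _ => hg.eq_iff)
      rw [this, Finset.card_image_of_injective _ (hex_injOn g hg)]
      exact offd_snd m
    · left
      rw [Finset.card_eq_zero, Finset.filter_eq_empty_iff]
      rintro ⟨a, b⟩ hab rfl
      rw [mem_hex] at hab
      obtain ⟨m, -, hm⟩ := hab
      exact h ⟨m, hm⟩
  · rintro ⟨i, j⟩ _ ⟨i', j'⟩ _
    obtain ⟨m, h1, h2⟩ := exists_third i i'
    have a1 := adj_of_mem (hex g) i (g m) ((mem_hex g _ _).mpr ⟨m, h1, rfl⟩)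
    have a2 := adj_of_mem (hex g) i' (g m) ((mem_hex g _ _).mpr ⟨m, h2, rfl⟩)
    exact a1.reachable.trans a2.reachable.symm

lemma hex_injective (g g' : Fin 3 → Fin s) (hg : Function.Injective g)
    (h : hex g = hex g') : g = g' := by
  funext m
  -- column `g m` occurs in `hex g`
  obtain ⟨i, hi, -⟩ := exists_third m m
  have hi := hi.symm
  have h1 : (i, g m) ∈ hex g' := by
    rw [← h, mem_hex]
    exact ⟨m, hi, rfl⟩
  obtain ⟨m', -, hm'⟩ := (mem_hex _ _ _).mp h1
  by_cases hmm : m = m'
  · rw [← hm', hmm]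
  · exfalso
    have h2 : (m, g m) ∈ hex g := by
      rw [h, mem_hex]
      exact ⟨m', hmm, hm'⟩
    obtain ⟨m'', hne, heq⟩ := (mem_hex _ _ _).mp h2
    exact hne (hg heq).symm

lemma exists_hex (F : Finset (Fin 3 × Fin s)) (h : IsCircle F) (h6 : F.card = 6) :
    ∃ g : Fin 3 → Fin s, Function.Injective g ∧ hex g = F := by
  classical
  have hr := two_mul_rows F h
  have hc := two_mul_cols F h
  have hr3 : (rows F).card = 3 := by omega
  have hc3 : (cols F).card = 3 := by omega
  have hrows : rows F = univ := by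
    apply Finset.eq_univ_of_card
    rw [hr3]
    simp
  -- each row misses exactly one of the columns
  have hrow2 : ∀ i : Fin 3, (F.filter (fun e => e.1 = i)).card = 2 := by
    intro i
    rcases h.row i with h0 | h2
    · exfalso
      have hi : i ∈ rows F := by rw [hrows]; exact Finset.mem_univ _
      obtain ⟨e, he, rfl⟩ := Finset.mem_image.mp hi
      rw [Finset.card_eq_zero, Finset.filter_eq_empty_iff] at h0
      exact h0 he rfl
    · exact h2
  have hcolrow : ∀ i : Fin 3, ((cols F).filter (fun j => (i, j) ∈ F)).card = 2 := by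
    intro i
    rw [← hrow2 i]
    symm
    apply Finset.card_bij (fun e _ => e.2)
    · intro e he
      have he' := Finset.mem_filter.mp he
      rw [Finset.mem_filter]
      refine ⟨Finset.mem_image_of_mem _ he'.1, ?_⟩
      rw [← he'.2]
      exact he'.1
    · intro e he f hf hef
      have he' := (Finset.mem_filter.mp he).2
      have hf' := (Finset.mem_filter.mp hf).2
      exact Prod.ext (he'.trans hf'.symm) hef
    · intro j hj
      exact ⟨(i, j), Finset.mem_filter.mpr ⟨(Finset.mem_filter.mp hj).2, rfl⟩, rfl⟩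
  have hmiss : ∀ i : Fin 3, ∃ j, j ∈ cols F ∧ (i, j) ∉ F ∧
      ∀ j' ∈ cols F, (i, j') ∉ F → j' = j := by
    intro i
    have hsum := Finset.card_filter_add_card_filter_not (s := cols F) (fun j => (i, j) ∈ F)
    rw [hcolrow i, hc3] at hsum
    have h1 : ((cols F).filter (fun j => ¬ (i, j) ∈ F)).card = 1 := by omega
    obtain ⟨j, hj⟩ := Finset.card_eq_one.mp h1
    have hj' : j ∈ (cols F).filter (fun j => ¬ (i, j) ∈ F) := by rw [hj]; simp
    refine ⟨j, (Finset.mem_filter.mp hj').1, (Finset.mem_filter.mp hj').2, ?_⟩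
    intro j' h1' h2'
    have : j' ∈ (cols F).filter (fun j => ¬ (i, j) ∈ F) := Finset.mem_filter.mpr ⟨h1', h2'⟩
    rw [hj, Finset.mem_singleton] at this
    exact this
  choose g hg1 hg2 hg3 using hmiss
  have hginj : Function.Injective g := by
    intro i i' hii
    by_contra hne
    -- column `g i` has at most one edge
    have hle : (F.filter (fun e => e.2 = g i)).card ≤ 1 := by
      rw [Finset.card_le_one]
      rintro ⟨a, b⟩ ha ⟨a', b'⟩ ha'
      have ha1 := Finset.mem_filter.mp ha
      have ha2 := Finset.mem_filter.mp ha'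
      have e1 : b = g i := ha1.2
      have e2 : b' = g i := ha2.2
      subst e1
      have n1 : a ≠ i := fun h => hg2 i (h ▸ ha1.1)
      have n2 : a ≠ i' := fun h => hg2 i' (by rw [← hii]; exact h ▸ ha1.1)
      have n3 : a' ≠ i := fun h => hg2 i (by rw [← e2]; exact h ▸ ha2.1)
      have n4 : a' ≠ i' := fun h => hg2 i' (by rw [← hii, ← e2]; exact h ▸ ha2.1)
      have haa : a = a' := fin_three_eq i i' a a' hne n1 n2 n3 n4
      rw [haa, e2]
    rcases h.col (g i) with h0 | h2
    · obtain ⟨e, he, heq⟩ := Finset.mem_image.mp (hg1 i)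
      rw [Finset.card_eq_zero, Finset.filter_eq_empty_iff] at h0
      exact h0 he heq
    · omega
  refine ⟨g, hginj, ?_⟩
  apply Finset.eq_of_subset_of_card_le
  · rintro ⟨i, j⟩ hij
    obtain ⟨m, hm, rfl⟩ := (mem_hex _ _ _).mp hij
    by_contra hcon
    exact hm (hginj (hg3 i (g m) (hg1 m) hcon)).symm
  · rw [h6, card_hex g hginj]

end Pool.Agent.H20.Neg
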