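import Pool.Agent.H20.Neg.Six

/-!
# Counting negative hexagons in `K_{3,s}`
-/

namespace Pool.Agent.H20.Neg

open Finset

variable {s : ℕ}

/-- triples of distinct columns -/
def triples (s : ℕ) : Finset (Fin s × Fin s × Fin s) :=
  univ.filter (fun t => t.1 ≠ t.2.1 ∧ t.1 ≠ t.2.2 ∧ t.2.1 ≠ t.2.2)

/-- the function attached to a triple -/
def tfun (t : Fin s × Fin s × Fin s) : Fin 3 → Fin s := ![t.1, t.2.1, t.2.2]

lemma tfun_injective_iff (t : Fin s × Fin s × Fin s) :
    Function.Injective (tfun t) ↔ t ∈ triples s := by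
  rw [triples, Finset.mem_filter]
  constructor
  · intro h
    refine ⟨Finset.mem_univ _, ?_, ?_, ?_⟩
    · intro e
      have : (0 : Fin 3) = 1 := h (by simpa [tfun] using e)
      exact absurd this (by decide)
    · intro e
      have : (0 : Fin 3) = 2 := h (by simpa [tfun] using e)
      exact absurd this (by decide)
    · intro e
      have : (1 : Fin 3) = 2 := h (by simpa [tfun] using e)
      exact absurd this (by decide)
  · rintro ⟨-, h1, h2, h3⟩ a b hab
    fin_cases a <;> fin_cases b <;> simp [tfun] at hab ⊢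
    · exact h1 hab
    · exact h2 hab
    · exact h1 hab.symm
    · exact h3 hab
    · exact h2 hab.symm
    · exact h3 hab.symm

lemma negCount_six (σ : Fin 3 → Fin s → ℤˣ) :
    negCount 6 σ = ((triples s).filter (fun t =>
      eps σ {1, 2} t.1 * eps σ {0, 2} t.2.1 * eps σ {0, 1} t.2.2 = -1)).card := by
  classical
  have hset : {F : Finset (Fin 3 × Fin s) |
      IsCircle F ∧ F.card = 6 ∧ ∏ e ∈ F, σ e.1 e.2 = -1} =
      (((triples s).filter (fun t =>
        eps σ {1, 2} t.1 * eps σ {0, 2} t.2.1 * eps σ {0, 1} t.2.2 = -1)).image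
        (fun t => hex (tfun t)) : Finset (Finset (Fin 3 × Fin s))) := by
    ext F
    simp only [Set.mem_ofPred_eq, Finset.coe_image, Set.mem_image, Finset.mem_coe,
      Finset.mem_filter]
    constructor
    · rintro ⟨h, h6, hs⟩
      obtain ⟨g, hg, rfl⟩ := exists_hex F h h6
      rw [prod_hex g hg] at hs
      have hgt : tfun (g 0, g 1, g 2) = g := by
        funext m
        fin_cases m <;> rfl
      refine ⟨(g 0, g 1, g 2), ⟨?_, hs⟩, by rw [hgt]⟩
      rw [← tfun_injective_iff, hgt]
      exact hg
    · rintro ⟨t, ⟨ht, hs⟩, rfl⟩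
      have hinj := (tfun_injective_iff t).mpr ht
      refine ⟨isCircle_hex _ hinj, card_hex _ hinj, ?_⟩
      rw [prod_hex _ hinj]
      exact hs
  rw [negCount, hset, Set.ncard_coe_finset, Finset.card_image_of_injOn]
  intro t ht t' ht' heq
  have h1 := (tfun_injective_iff t).mpr (Finset.mem_filter.mp (Finset.mem_coe.mp ht)).1
  have h := hex_injective _ _ h1 heq
  have e0 := congrFun h 0
  have e1 := congrFun h 1
  have e2 := congrFun h 2
  simp only [tfun, Matrix.cons_val_zero, Matrix.cons_val_one, Matrix.cons_val] at e0 e1 e2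
  exact Prod.ext e0 (Prod.ext e1 e2)

lemma two_mul_card_neg {α : Type*} (T : Finset α) (φ : α → ℤˣ) :
    (2 * ((T.filter (fun t => φ t = -1)).card : ℤ)) = T.card - ∑ t ∈ T, ((φ t : ℤˣ) : ℤ) := by
  have h1 : ∀ t, ((φ t : ℤˣ) : ℤ) = 1 - 2 * (if φ t = -1 then 1 else 0) := by
    intro t
    rcases Int.units_eq_one_or (φ t) with h | h
    · rw [h, if_neg (by decide)]
      simp
    · rw [h, if_pos rfl]
      simp
  simp_rw [h1]
  rw [Finset.sum_sub_distrib, ← Finset.mul_sum, Finset.sum_boole]
  simp

/-- A sum over triples of distinct indices. -/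
lemma sum_triples (f g h : Fin s → ℤ) :
    ∑ t ∈ triples s, f t.1 * g t.2.1 * h t.2.2 =
      (∑ j, f j) * (∑ j, g j) * (∑ j, h j) - (∑ j, g j) * (∑ j, f j * h j)
        - (∑ j, f j) * (∑ j, g j * h j) - (∑ j, h j) * (∑ j, f j * g j)
        + 2 * ∑ j, f j * g j * h j := by
  classical
  have key : ∀ a b c : Fin s,
      (if a ≠ b ∧ a ≠ c ∧ b ≠ c then f a * g b * h c else 0) =
        f a * g b * h c - (if a = b then f a * g b * h c else 0)
          - (if a = c then f a * g b * h c else 0) - (if b = c then f a * g b * h c else 0)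
          + 2 * (if a = b then (if b = c then f a * g b * h c else 0) else 0) := by
    intro a b c
    by_cases h1 : a = b
    · by_cases h2 : b = c
      · subst h1
        subst h2
        simp
        ring
      · have h3 : a ≠ c := h1 ▸ h2
        simp [h1, h2]
    · by_cases h2 : b = c
      · have h3 : a ≠ c := h2 ▸ h1
        simp [h1, h2, h3]
      · by_cases h3 : a = c
        · subst h3
          simp [h1, h2]
        · simp [h1, h2, h3]
  rw [triples, Finset.sum_filter, Fintype.sum_prod_type]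
  simp_rw [Fintype.sum_prod_type, key, Finset.sum_add_distrib, Finset.sum_sub_distrib]
  have t1 : ∑ a, ∑ b, ∑ c, f a * g b * h c = (∑ j, f j) * (∑ j, g j) * (∑ j, h j) := by
    simp_rw [← Finset.mul_sum, ← Finset.sum_mul, ← Finset.mul_sum, ← Finset.sum_mul]
  have t2 : ∑ a, ∑ b, ∑ c, (if a = b then f a * g b * h c else 0) =
      (∑ j, h j) * (∑ j, f j * g j) := by
    have : ∀ a : Fin s, ∑ b, ∑ c, (if a = b then f a * g b * h c else 0) =
        f a * g a * ∑ c, h c := by
      intro a
      rw [Finset.sum_comm]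
      simp_rw [Finset.sum_ite_eq, Finset.mem_univ, if_true, ← Finset.mul_sum]
    simp_rw [this, ← Finset.sum_mul]
    ring
  have t3 : ∑ a, ∑ b, ∑ c, (if a = c then f a * g b * h c else 0) =
      (∑ j, g j) * (∑ j, f j * h j) := by
    have : ∀ a : Fin s, ∑ b, ∑ c, (if a = c then f a * g b * h c else 0) =
        (∑ b, g b) * (f a * h a) := by
      intro a
      simp_rw [Finset.sum_ite_eq, Finset.mem_univ, if_true]
      rw [Finset.sum_mul]
      apply Finset.sum_congr rfl
      intro b _
      ring
    simp_rw [this, ← Finset.mul_sum]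
  have t4 : ∑ a, ∑ b, ∑ c, (if b = c then f a * g b * h c else 0) =
      (∑ j, f j) * (∑ j, g j * h j) := by
    simp_rw [Finset.sum_ite_eq, Finset.mem_univ, if_true, mul_assoc, ← Finset.mul_sum,
      ← Finset.sum_mul]
  have t5 : ∑ a, ∑ b, ∑ c, 2 * (if a = b then (if b = c then f a * g b * h c else 0) else 0) =
      2 * ∑ j, f j * g j * h j := by
    simp_rw [← Finset.mul_sum]
    congr 1
    apply Finset.sum_congr rfl
    intro a _
    rw [Finset.sum_comm]
    simp_rw [Finset.sum_ite_eq, Finset.mem_univ, if_true]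
    rw [Finset.sum_ite_eq]
    simp
  rw [t1, t2, t3, t4, t5]
  ring

lemma card_triples (s : ℕ) : ((triples s).card : ℤ) = (s : ℤ) ^ 3 - 3 * s ^ 2 + 2 * s := by
  have h := sum_triples (s := s) (fun _ => 1) (fun _ => 1) (fun _ => 1)
  simp only [mul_one, Finset.sum_const, Finset.card_univ, Fintype.card_fin, nsmul_eq_mul] at h
  rw [h]
  ring

end Pool.Agent.H20.Neg
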