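import Pool.Agent.H20.Neg.SixCount

/-!
# The sets `S_l(2,s)` and `S_l(3,s)`
-/

namespace Pool.Agent.H20.Neg

open Finset

variable {s : ℕ}

lemma powersetCard_two_three : (univ : Finset (Fin 3)).powersetCard 2 = {{1, 2}, {0, 2}, {0, 1}} := by
  decide

lemma powersetCard_two_two : (univ : Finset (Fin 2)).powersetCard 2 = {univ} := by
  decide

lemma units_sq (a : ℤˣ) : ((a : ℤˣ) : ℤ) * ((a : ℤˣ) : ℤ) = 1 := by
  rcases Int.units_eq_one_or a with h | h <;> rw [h] <;> simp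

/-- the three row products multiply to one -/
lemma eps_prod (σ : Fin 3 → Fin s → ℤˣ) (j : Fin s) :
    ((eps σ {0, 1} j : ℤˣ) : ℤ) = ((eps σ {1, 2} j : ℤˣ) : ℤ) * ((eps σ {0, 2} j : ℤˣ) : ℤ) := by
  have h2 := units_sq (σ 2 j)
  rw [eps, eps, eps, Finset.prod_pair (by decide), Finset.prod_pair (by decide),
    Finset.prod_pair (by decide)]
  push_cast
  linear_combination (-((σ 0 j : ℤˣ) : ℤ) * ((σ 1 j : ℤˣ) : ℤ)) * h2

/-- Four times the number of negative 4-circles of `K_{3,s}`. -/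
lemma four_three (σ : Fin 3 → Fin s → ℤˣ) :
    (4 * (negCount 4 σ : ℤ)) = 3 * (s : ℤ) ^ 2 - (∑ j, ((eps σ {1, 2} j : ℤˣ) : ℤ)) ^ 2
      - (∑ j, ((eps σ {0, 2} j : ℤˣ) : ℤ)) ^ 2 - (∑ j, ((eps σ {0, 1} j : ℤˣ) : ℤ)) ^ 2 := by
  rw [four_mul_negCount, powersetCard_two_three, Finset.sum_insert (by decide),
    Finset.sum_insert (by decide), Finset.sum_singleton]
  ring

/-- Twice the number of negative 6-circles of `K_{3,s}`. -/
lemma six_three (σ : Fin 3 → Fin s → ℤˣ) :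
    (2 * (negCount 6 σ : ℤ)) = (s : ℤ) ^ 3 - 3 * s ^ 2 + 2 * s
      - ((∑ j, ((eps σ {1, 2} j : ℤˣ) : ℤ)) * (∑ j, ((eps σ {0, 2} j : ℤˣ) : ℤ)) *
          (∑ j, ((eps σ {0, 1} j : ℤˣ) : ℤ))
        - (∑ j, ((eps σ {1, 2} j : ℤˣ) : ℤ)) ^ 2 - (∑ j, ((eps σ {0, 2} j : ℤˣ) : ℤ)) ^ 2
        - (∑ j, ((eps σ {0, 1} j : ℤˣ) : ℤ)) ^ 2 + 2 * s) := by
  rw [negCount_six, two_mul_card_neg, card_triples]
  congr 1
  push_cast
  rw [sum_triples (fun j => ((eps σ {1, 2} j : ℤˣ) : ℤ)) (fun j => ((eps σ {0, 2} j : ℤˣ) : ℤ))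
    (fun j => ((eps σ {0, 1} j : ℤˣ) : ℤ))]
  have e1 : ∀ j, ((eps σ {1, 2} j : ℤˣ) : ℤ) * ((eps σ {0, 1} j : ℤˣ) : ℤ) =
      ((eps σ {0, 2} j : ℤˣ) : ℤ) := by
    intro j
    rw [eps_prod, ← mul_assoc, units_sq, one_mul]
  have e2 : ∀ j, ((eps σ {0, 2} j : ℤˣ) : ℤ) * ((eps σ {0, 1} j : ℤˣ) : ℤ) =
      ((eps σ {1, 2} j : ℤˣ) : ℤ) := by
    intro j
    rw [eps_prod]
    have := units_sq (eps σ {0, 2} j)
    linear_combination ((eps σ {1, 2} j : ℤˣ) : ℤ) * this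
  have e3 : ∀ j, ((eps σ {1, 2} j : ℤˣ) : ℤ) * ((eps σ {0, 2} j : ℤˣ) : ℤ) =
      ((eps σ {0, 1} j : ℤˣ) : ℤ) := fun j => (eps_prod σ j).symm
  simp_rw [e1, e2, e3, units_sq]
  simp
  ring

/-- the number of columns of given type -/
lemma type_counts (f g : Fin s → ℤˣ) : ∃ a b c d : ℕ, a + b + c + d = s ∧
    (∑ j, ((f j : ℤˣ) : ℤ)) = a + b - c - d ∧ (∑ j, ((g j : ℤˣ) : ℤ)) = a - b + c - d ∧
    (∑ j, ((f j : ℤˣ) : ℤ) * ((g j : ℤˣ) : ℤ)) = a - b - c + d := by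
  classical
  refine ⟨(univ.filter (fun j => f j = 1 ∧ g j = 1)).card,
    (univ.filter (fun j => f j = 1 ∧ g j = -1)).card,
    (univ.filter (fun j => f j = -1 ∧ g j = 1)).card,
    (univ.filter (fun j => f j = -1 ∧ g j = -1)).card, ?_, ?_, ?_, ?_⟩
  · have : s = ∑ j : Fin s, 1 := by simp
    conv_rhs => rw [this]
    simp_rw [Finset.card_filter]
    rw [← Finset.sum_add_distrib, ← Finset.sum_add_distrib, ← Finset.sum_add_distrib]
    apply Finset.sum_congr rfl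
    intro j _
    rcases Int.units_eq_one_or (f j) with h | h <;> rcases Int.units_eq_one_or (g j) with h' | h' <;>
      rw [h, h'] <;> decide
  all_goals
    simp_rw [Finset.card_filter]
    push_cast
    first
      | rw [← Finset.sum_add_distrib, ← Finset.sum_sub_distrib, ← Finset.sum_sub_distrib]
      | rw [← Finset.sum_sub_distrib, ← Finset.sum_add_distrib, ← Finset.sum_sub_distrib]
      | rw [← Finset.sum_sub_distrib, ← Finset.sum_sub_distrib, ← Finset.sum_add_distrib]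
    apply Finset.sum_congr rfl
    intro j _
    rcases Int.units_eq_one_or (f j) with h | h <;> rcases Int.units_eq_one_or (g j) with h' | h' <;>
      rw [h, h'] <;> decide

/-- realization of type counts -/
lemma exists_types (a b c d : ℕ) : ∃ f g : Fin (a + b + c + d) → ℤˣ,
    (∑ j, ((f j : ℤˣ) : ℤ)) = a + b - c - d ∧ (∑ j, ((g j : ℤˣ) : ℤ)) = a - b + c - d ∧
    (∑ j, ((f j : ℤˣ) : ℤ) * ((g j : ℤˣ) : ℤ)) = a - b - c + d := by
  refine ⟨Fin.append (Fin.append (Fin.append (fun _ => 1) (fun _ => 1)) (fun _ => -1)) (fun _ => -1),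
    Fin.append (Fin.append (Fin.append (fun _ => 1) (fun _ => -1)) (fun _ => 1)) (fun _ => -1),
    ?_, ?_, ?_⟩
  all_goals
    simp_rw [Fin.sum_univ_add, Fin.append_left, Fin.append_right]
    simp
    try ring

end Pool.Agent.H20.Neg
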