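import Pool.Agent.H20.Neg.Three

/-!
# The sets `S_l(2,s)` and `S_l(3,s)`: main statements
-/

namespace Pool.Agent.H20.Neg

open Finset

variable {s : ℕ}

lemma negCount_two (σ : Fin 2 → Fin s → ℤˣ) :
    negCount 4 σ = dcount (eps σ univ) * (s - dcount (eps σ univ)) := by
  rw [negCount_four', powersetCard_two_two, Finset.sum_singleton]

lemma S_four_two (s : ℕ) : S 4 2 s = {c | ∃ a ≤ s, c = a * (s - a)} := by
  ext c
  constructor
  · rintro ⟨σ, rfl⟩
    exact ⟨_, dcount_le _, negCount_two σ⟩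
  · rintro ⟨a, ha, rfl⟩
    obtain ⟨b, rfl⟩ : ∃ b, s = a + b := ⟨s - a, by omega⟩
    let e : Fin (a + b) → ℤˣ := Fin.append (fun _ => -1) (fun _ => 1)
    refine ⟨![fun _ => 1, e], ?_⟩
    have he : eps ![fun _ => 1, e] univ = e := by
      funext j
      simp [eps, Fin.prod_univ_two]
    have hd : dcount e = a := by
      have h := sum_eq_dcount e
      rw [Fin.sum_univ_add] at h
      simp only [e, Fin.append_left, Fin.append_right] at h
      simp at h
      have : dcount e = dcount (Fin.append (fun _ : Fin a => (-1 : ℤˣ)) (fun _ : Fin b => 1)) := rfl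
      rw [this]
      omega
    rw [negCount_two, he, hd]

/-- The joint values of the numbers of negative 4-circles and 6-circles of `K_{3,s}`. -/
theorem joint_three (s c4 c6 : ℕ) :
    (∃ σ : Fin 3 → Fin s → ℤˣ, negCount 4 σ = c4 ∧ negCount 6 σ = c6) ↔
    ∃ a b c d : ℕ, a + b + c + d = s ∧
      (c4 : ℤ) = (s : ℤ) ^ 2 - (a ^ 2 + b ^ 2 + c ^ 2 + d ^ 2) ∧
      3 * (c6 : ℤ) = (s : ℤ) ^ 3 - 6 * s ^ 2 + 3 * (s + 2) * (a ^ 2 + b ^ 2 + c ^ 2 + d ^ 2)
        - 4 * (a ^ 3 + b ^ 3 + c ^ 3 + d ^ 3) := by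
  constructor
  · rintro ⟨σ, rfl, rfl⟩
    obtain ⟨a, b, c, d, hs, h1, h2, h3⟩ := type_counts (eps σ {1, 2}) (eps σ {0, 2})
    refine ⟨a, b, c, d, hs, ?_, ?_⟩
    · have h4 := four_three σ
      simp_rw [eps_prod] at h4
      rw [h1, h2, h3] at h4
      have hs' : (s : ℤ) = a + b + c + d := by rw [← hs]; push_cast; ring
      rw [hs'] at h4 ⊢
      linarith
    · have h6 := six_three σ
      simp_rw [eps_prod] at h6
      rw [h1, h2, h3] at h6
      have hs' : (s : ℤ) = a + b + c + d := by rw [← hs]; push_cast; ring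
      rw [hs'] at h6 ⊢
      linarith
  · rintro ⟨a, b, c, d, hs, h4, h6⟩
    subst hs
    obtain ⟨f, g, h1, h2, h3⟩ := exists_types a b c d
    have e12 : eps ![g, f, fun _ => 1] {1, 2} = f := by
      funext j
      simp [eps]
    have e02 : eps ![g, f, fun _ => 1] {0, 2} = g := by
      funext j
      simp [eps]
    refine ⟨![g, f, fun _ => 1], ?_, ?_⟩
    · have h := four_three ![g, f, fun _ => 1]
      simp_rw [eps_prod, e12, e02] at h
      rw [h1, h2, h3] at h
      push_cast at h h4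
      have : ((negCount 4 ![g, f, fun _ => 1] : ℕ) : ℤ) = (c4 : ℤ) := by linarith
      exact_mod_cast this
    · have h := six_three ![g, f, fun _ => 1]
      simp_rw [eps_prod, e12, e02] at h
      rw [h1, h2, h3] at h
      push_cast at h h6
      have : ((negCount 6 ![g, f, fun _ => 1] : ℕ) : ℤ) = (c6 : ℤ) := by linarith
      exact_mod_cast this

end Pool.Agent.H20.Neg
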